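import Pool.Agent.H22.CM.Stm
import Pool.Graph.R_seed8.Y410.PAR.EXT

/-!
# Parts HOLE and HOC of the crew CM (MP_281388_al)
-/

set_option autoImplicit false

namespace H30.CM

open Pool.Agent.Y382.PAR H22.CM

/-- gluing a map outside `L` with a map of `L` -/
noncomputable def glue {G : Type} [Group G] (L : Subgroup G) (f0 : G → G) (ψ : L → L) (g : G) : G :=
  open Classical in if h : g ∈ L then (ψ ⟨g, h⟩ : G) else f0 g

theorem glue_mem {G : Type} [Group G] (L : Subgroup G) (f0 : G → G) (ψ : L → L) (g : G) (h : g ∈ L) :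
    glue L f0 ψ g = (ψ ⟨g, h⟩ : G) := by
  unfold glue
  rw [dif_pos h]

theorem glue_not {G : Type} [Group G] (L : Subgroup G) (f0 : G → G) (ψ : L → L) (g : G) (h : g ∉ L) :
    glue L f0 ψ g = f0 g := by
  unfold glue
  rw [dif_neg h]

theorem glue_inj {G : Type} [Group G] (L : Subgroup G) (f0 : G → G) (ψ : L → L)
    (h0 : ∀ x, x ∉ L → f0 x ∉ L) (h1 : Set.InjOn f0 {x | x ∉ L}) (hψ : Function.Injective ψ) :
    Function.Injective (glue L f0 ψ) := by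
  intro x y e
  by_cases hx : x ∈ L <;> by_cases hy : y ∈ L
  · rw [glue_mem L f0 ψ x hx, glue_mem L f0 ψ y hy] at e
    exact congrArg Subtype.val (hψ (Subtype.ext e))
  · rw [glue_mem L f0 ψ x hx, glue_not L f0 ψ y hy] at e
    exact absurd (e ▸ (ψ ⟨x, hx⟩).2) (h0 y hy)
  · rw [glue_not L f0 ψ x hx, glue_mem L f0 ψ y hy] at e
    exact absurd (e.symm ▸ (ψ ⟨y, hy⟩).2) (h0 x hx)
  · rw [glue_not L f0 ψ x hx, glue_not L f0 ψ y hy] at e
    exact h1 hx hy e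

theorem mul_glue_inj {G : Type} [Group G] (L : Subgroup G) (f0 : G → G) (ψ : L → L)
    (h0 : ∀ x, x ∉ L → x * f0 x ∉ L) (h1 : Set.InjOn (fun x => x * f0 x) {x | x ∉ L})
    (hψ : Function.Injective fun x => x * ψ x) :
    Function.Injective (fun x => x * glue L f0 ψ x) := by
  intro x y e
  simp only at e
  by_cases hx : x ∈ L <;> by_cases hy : y ∈ L
  · rw [glue_mem L f0 ψ x hx, glue_mem L f0 ψ y hy] at e
    exact congrArg Subtype.val (@hψ ⟨x, hx⟩ ⟨y, hy⟩ (Subtype.ext e))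
  · rw [glue_mem L f0 ψ x hx, glue_not L f0 ψ y hy] at e
    exact absurd (e ▸ L.mul_mem hx (ψ ⟨x, hx⟩).2) (h0 y hy)
  · rw [glue_not L f0 ψ x hx, glue_mem L f0 ψ y hy] at e
    exact absurd (e.symm ▸ L.mul_mem hy (ψ ⟨y, hy⟩).2) (h0 x hx)
  · rw [glue_not L f0 ψ x hx, glue_not L f0 ψ y hy] at e
    exact h1 hx hy e

theorem mk_perm {G : Type} [Group G] [Finite G] (L : Subgroup G) (f0 : G → G)
    (h0 : ∀ x, x ∉ L → f0 x ∉ L ∧ x * f0 x ∉ L) (h1 : Set.InjOn f0 {x | x ∉ L})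
    (h2 : Set.InjOn (fun x => x * f0 x) {x | x ∉ L}) (ψ Ψ : Equiv.Perm L) (hψ : ∀ n, Ψ n = n * ψ n) :
    ∃ f F : Equiv.Perm G, (∀ g, F g = g * f g) ∧ (∀ g, f g = glue L f0 ψ g) := by
  have i1 : Function.Injective (glue L f0 ψ) :=
    glue_inj L f0 ψ (fun x hx => (h0 x hx).1) h1 ψ.injective
  have i2 : Function.Injective (fun x => x * glue L f0 ψ x) := by
    refine mul_glue_inj L f0 ψ (fun x hx => (h0 x hx).2) h2 ?_
    simp only [← hψ]
    exact Ψ.injective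
  exact ⟨Equiv.ofBijective _ (Finite.injective_iff_bijective.1 i1),
      Equiv.ofBijective _ (Finite.injective_iff_bijective.1 i2), fun g => rfl, fun g => rfl⟩

theorem t_HOC : S_HOC := by
  intro G _ _ L hL hcm
  obtain ⟨f0, h0, h1, h2⟩ := hL
  obtain ⟨ψ, Ψ, hψ⟩ := hcm
  obtain ⟨f, F, hF, -⟩ := mk_perm L f0 h0 h1 h2 ψ Ψ hψ
  exact ⟨f, F, hF⟩

theorem t_HOLE : S_HOLE := by
  classical
  intro G _ _ L hL hA
  obtain ⟨r0, h0, h1, h2⟩ := hL
  obtain ⟨φ, Φ, hφ, -, -⟩ := hA 1 1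
  obtain ⟨f0, F0, hF0, hf0⟩ := mk_perm L r0 h0 h1 h2 φ Φ hφ
  intro ε δ
  obtain ⟨ψ, Ψ, hψ, hψε, hΨδ⟩ := hA (ε * sgn f0 * sgn φ) (δ * sgn F0 * sgn Φ)
  obtain ⟨f, F, hF, hf⟩ := mk_perm L r0 h0 h1 h2 ψ Ψ hψ
  have e1 : f = f0 * Equiv.Perm.ofSubtype (φ⁻¹ * ψ) := by
    ext g
    rw [Equiv.Perm.mul_apply]
    by_cases hg : g ∈ L
    · rw [Equiv.Perm.ofSubtype_apply_of_mem _ hg, hf0, hf, glue_mem L r0 ψ g hg,
        glue_mem L r0 φ _ (Subtype.coe_prop _)]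
      simp
    · rw [Equiv.Perm.ofSubtype_apply_of_not_mem _ hg, hf0, hf, glue_not L r0 ψ g hg,
        glue_not L r0 φ g hg]
  have e2 : F = F0 * Equiv.Perm.ofSubtype (Φ⁻¹ * Ψ) := by
    ext g
    rw [Equiv.Perm.mul_apply]
    by_cases hg : g ∈ L
    · rw [Equiv.Perm.ofSubtype_apply_of_mem _ hg, hF0, hF, hf0, hf, glue_mem L r0 ψ g hg,
        glue_mem L r0 φ _ (Subtype.coe_prop _)]
      have h2' := hφ ((Φ⁻¹ * Ψ) ⟨g, hg⟩)
      have h3' : Φ ((Φ⁻¹ * Ψ) ⟨g, hg⟩) = Ψ ⟨g, hg⟩ := by simp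
      rw [h3'] at h2'
      have h4' := hψ ⟨g, hg⟩
      rw [h2'] at h4'
      have h5 := congrArg Subtype.val h4'
      rw [Subgroup.coe_mul, Subgroup.coe_mul] at h5
      exact h5.symm
    · rw [Equiv.Perm.ofSubtype_apply_of_not_mem _ hg, hF0, hF, hf0, hf, glue_not L r0 ψ g hg,
        glue_not L r0 φ g hg]
  refine ⟨f, F, hF, ?_, ?_⟩
  · rw [e1, sgn_mul, Pool.Agent.Y410.PAR.sgn_ofSubtype, sgn_mul, sgn_inv, hψε]
    have h1 := Int.units_mul_self (sgn f0)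
    have h2 := Int.units_mul_self (sgn φ)
    calc sgn f0 * (sgn φ * (ε * sgn f0 * sgn φ)) = ε * (sgn f0 * sgn f0) * (sgn φ * sgn φ) := by
          simp only [mul_comm, mul_left_comm, mul_assoc]
      _ = ε := by rw [h1, h2, mul_one, mul_one]
  · rw [e2, sgn_mul, Pool.Agent.Y410.PAR.sgn_ofSubtype, sgn_mul, sgn_inv, hΨδ]
    have h1 := Int.units_mul_self (sgn F0)
    have h2 := Int.units_mul_self (sgn Φ)
    calc sgn F0 * (sgn Φ * (δ * sgn F0 * sgn Φ)) = δ * (sgn F0 * sgn F0) * (sgn Φ * sgn Φ) := by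
          simp only [mul_comm, mul_left_comm, mul_assoc]
      _ = δ := by rw [h1, h2, mul_one, mul_one]

end H30.CM
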