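import Pool.Agent.H22.CM.Stm
import Pool.Graph.R_seed8.Y410.PAR.EXT

/-!
# Part EXC of the crew CM (MP_281388_al)
-/

set_option autoImplicit false

namespace H30.CM

open Pool.Agent.Y382.PAR H22.CM

theorem t_EXC : S_EXC := by
  classical
  intro G _ _ N _ hQ hN
  obtain ⟨η, H, hH⟩ := hQ
  obtain ⟨φ, Φ, hφ⟩ := hN
  set x : G ⧸ N → G := fun i => Quotient.out i with hxdef
  have hx : ∀ i, ((x i : G) : G ⧸ N) = i := fun i => QuotientGroup.out_eq' i
  set y : G ⧸ N → G := fun i => x (η i) with hydef
  have hy : ∀ i, ((y i : G) : G ⧸ N) = η i := fun i => hx _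
  have hyi : Function.Injective fun i => ((y i : G) : G ⧸ N) := by
    simp only [hy]
    exact η.injective
  have hyi' : Function.Injective fun i => i * ((y i : G) : G ⧸ N) := by
    simp only [hy, ← hH]
    exact H.injective
  have h1 : Function.Injective (Pool.Agent.Y410.PAR.ff hx y (fun _ n => φ n)) :=
    Pool.Agent.Y410.PAR.ff_inj hx hyi fun i => φ.injective
  have h2 : Function.Injective (fun g => g * Pool.Agent.Y410.PAR.ff hx y (fun _ n => φ n) g) := by
    refine Pool.Agent.Y410.PAR.mul_ff_inj hx hyi' fun i => ?_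
    simp only [← hφ]
    exact Φ.injective
  exact ⟨Equiv.ofBijective _ (Finite.injective_iff_bijective.1 h1),
    Equiv.ofBijective _ (Finite.injective_iff_bijective.1 h2), fun g => rfl⟩

end H30.CM
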