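import Pool.Agent.H22.CM.Stm

/-!
# Parts VCM and E8 of the crew CM (MP_281388_al)
-/

set_option autoImplicit false

namespace H30.CM

open Pool.Agent.Y382.PAR H22.CM

theorem hasCM_congr {G H : Type} [Group G] [Group H] (e : G ≃* H) (h : HasCM G) : HasCM H := by
  obtain ⟨f, F, hF⟩ := h
  refine ⟨e.toEquiv.permCongr f, e.toEquiv.permCongr F, fun x => ?_⟩
  simp only [Equiv.permCongr_apply]
  rw [hF]
  change e (e.symm x * f (e.symm x)) = x * e (f (e.symm x))
  rw [map_mul, MulEquiv.apply_symm_apply]

theorem cm_add {V : Type} [AddGroup V] [Finite V] (A : V → V) (h1 : Function.Injective A)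
    (h2 : Function.Injective fun x => x + A x) : HasCM (Multiplicative V) := by
  have : Finite (Multiplicative V) := Finite.of_equiv V Multiplicative.ofAdd
  have i1 : Function.Injective (fun x : Multiplicative V => Multiplicative.ofAdd (A x.toAdd)) := by
    intro x y e
    exact h1 e
  have i2 : Function.Injective
      (fun x : Multiplicative V => x * Multiplicative.ofAdd (A x.toAdd)) := by
    intro x y e
    exact @h2 x.toAdd y.toAdd e
  exact ⟨Equiv.ofBijective _ (Finite.injective_iff_bijective.1 i1),
    Equiv.ofBijective _ (Finite.injective_iff_bijective.1 i2), fun g => rfl⟩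

theorem t_VCM : S_VCM := by
  intro Q _ h4 hsq
  have hfin : Finite Q := Nat.finite_of_card_ne_zero (by rw [h4]; norm_num)
  have hnt : Nontrivial Q := Finite.one_lt_card_iff_nontrivial.1 (by rw [h4]; norm_num)
  have hexp : Monoid.exponent Q = 2 := by
    have hd : Monoid.exponent Q ∣ 2 := Monoid.exponent_dvd_of_forall_pow_eq_one (fun g => by
      rw [pow_two]; exact hsq g)
    rcases (Nat.dvd_prime Nat.prime_two).1 hd with h | h
    · have := Monoid.exp_eq_one_iff.1 h
      exact absurd this (not_subsingleton Q)
    · exact h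
  have hK : IsKleinFour Q := ⟨h4, hexp⟩
  obtain ⟨e⟩ := IsKleinFour.nonempty_mulEquiv (G₁ := Multiplicative (ZMod 2 × ZMod 2)) (G₂ := Q)
  refine hasCM_congr e (cm_add (fun p : ZMod 2 × ZMod 2 => (p.2, p.1 + p.2)) ?_ ?_)
  · decide
  · decide

theorem t_E8 : S_E8 := by
  intro P _ h8 hsq
  have hfin : Finite P := Nat.finite_of_card_ne_zero (by rw [h8]; norm_num)
  have hinv : ∀ x : P, x⁻¹ = x := fun x => inv_eq_of_mul_eq_one_left (hsq x)
  have hcomm : ∀ x y : P, x * y = y * x := by
    intro x y
    have := hinv (x * y)
    rw [mul_inv_rev, hinv, hinv] at this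
    exact this.symm
  letI : CommGroup P := { ‹Group P› with mul_comm := hcomm }
  letI : Module (ZMod 2) (Additive P) := AddCommGroup.zmodModule (n := 2) (by
    intro x
    rw [two_nsmul]
    exact hsq x.toMul)
  have hfin' : Finite (Additive P) := hfin
  have hfd : Module.Finite (ZMod 2) (Additive P) := Module.Finite.of_finite
  have hcard : Nat.card (Additive P) = 2 ^ Module.finrank (ZMod 2) (Additive P) := by
    have := Module.natCard_eq_pow_finrank (K := ZMod 2) (V := Additive P)
    rw [Nat.card_zmod] at this
    exact this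
  have hr : Module.finrank (ZMod 2) (Additive P) = 3 := by
    have h1 : Nat.card (Additive P) = 8 := h8
    rw [h1] at hcard
    have h2 : (2 : ℕ) ^ 3 = 2 ^ Module.finrank (ZMod 2) (Additive P) := by
      rw [← hcard]; norm_num
    exact (Nat.pow_right_injective (le_refl 2) h2).symm
  let b := Module.finBasisOfFinrankEq (ZMod 2) (Additive P) hr
  let e : (Fin 3 → ZMod 2) ≃+ Additive P := b.equivFun.symm.toAddEquiv
  have e' : Multiplicative (Fin 3 → ZMod 2) ≃* P :=
    { toFun := fun x => (e x.toAdd).toMul
      invFun := fun y => Multiplicative.ofAdd (e.symm (Additive.ofMul y))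
      left_inv := fun x => by simp
      right_inv := fun y => by simp
      map_mul' := fun x y => by simp }
  refine hasCM_congr e' (cm_add (fun v : Fin 3 → ZMod 2 => ![v 2, v 0 + v 2, v 1]) ?_ ?_)
  · decide
  · decide

end H30.CM
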